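import Pool.Agent.H93.AS.Defs

/-!
# MP_1f2761_nt, k = 2: rows CAR, VAL, LAR
-/

set_option autoImplicit false

open Finset

namespace Pool.Agent.H93.AS

/-- Legendre's formula with levels `1..L`. -/
theorem leg54 {p L M : ℕ} (hp : p.Prime) (hM : M < 2 ^ L) :
    M.factorial.factorization p = ∑ i ∈ Ico 1 (L + 1), M / p ^ i := by
  apply Nat.factorization_factorial hp
  rcases Nat.eq_zero_or_pos M with h0 | h0
  · rw [h0, Nat.log_zero_right]
    omega
  · have h1 : Nat.log p M < L := by
      apply Nat.log_lt_of_lt_pow (by omega)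
      exact lt_of_lt_of_le hM (Nat.pow_le_pow_left hp.two_le L)
    omega

theorem div_add54 (q a b : ℕ) (hq : 0 < q) :
    (a + b) / q = a / q + b / q + if (a + b) % q < a % q then 1 else 0 := by
  have h1 := Nat.div_add_mod a q
  have h2 := Nat.div_add_mod b q
  have h3 := Nat.mod_lt a hq
  have h4 := Nat.mod_lt b hq
  have hab : a + b = q * (a / q + b / q) + (a % q + b % q) := by
    rw [Nat.mul_add]
    omega
  by_cases h : a % q + b % q < q
  · have e1 : (a + b) / q = a / q + b / q := by
      rw [hab, Nat.mul_add_div hq, Nat.div_eq_of_lt h, Nat.add_zero]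
    have e2 : (a + b) % q = a % q + b % q := by
      rw [hab, Nat.mul_add_mod, Nat.mod_eq_of_lt h]
    rw [e1, e2, if_neg (by omega), Nat.add_zero]
  · have e1 : (a + b) / q = a / q + b / q + 1 := by
      rw [hab, Nat.mul_add_div hq]
      have : (a % q + b % q) / q = 1 := by
        rw [Nat.div_eq_iff hq]
        omega
      rw [this]
    have e2 : (a + b) % q = a % q + b % q - q := by
      rw [hab, Nat.mul_add_mod, Nat.mod_eq_sub_mod (by omega), Nat.mod_eq_of_lt (by omega)]
    rw [e1, e2, if_pos (by omega)]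

theorem car : CARStmt := by
  intro p g L M a hp haM hM _ h
  have h1 : M.factorial.factorization p =
      a.factorial.factorization p + (M - a).factorial.factorization p + Cp p L M a := by
    rw [leg54 hp hM, leg54 hp (lt_of_le_of_lt haM hM),
      leg54 hp (lt_of_le_of_lt (Nat.sub_le M a) hM)]
    unfold Cp
    rw [card_filter, ← sum_add_distrib, ← sum_add_distrib]
    apply sum_congr rfl
    intro i _
    have h2 := div_add54 (p ^ i) a (M - a) (pow_pos hp.pos i)
    rw [Nat.add_sub_cancel' haM] at h2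
    exact h2
  omega

/-- The contribution of one level. -/
theorem level54 (q g M : ℕ) (hg : g ≤ M) (hgq : g < q) :
    M / q = (M - g) / q + if M % q < g then 1 else 0 := by
  have hq : 0 < q := by omega
  have h1 := div_add54 q g (M - g) hq
  rw [Nat.add_sub_cancel' hg, Nat.mod_eq_of_lt hgq, Nat.div_eq_of_lt hgq, Nat.zero_add] at h1
  exact h1

theorem val : VALStmt := by
  intro p g L M hp hM hg
  rw [leg54 hp hM, leg54 hp (lt_of_le_of_lt (Nat.sub_le M g) hM)]
  have key : ∀ i ∈ Ico 1 (L + 1), M / p ^ i ≤ (M - g) / p ^ i + (g / p ^ i +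
      ((if p ^ i ≤ g then 1 else 0) + if g < p ^ i ∧ M % p ^ i < g then 1 else 0)) := by
    intro i _
    have hq : 0 < p ^ i := pow_pos hp.pos i
    by_cases h : p ^ i ≤ g
    · have h1 := div_add54 (p ^ i) g (M - g) hq
      rw [Nat.add_sub_cancel' hg] at h1
      rw [if_pos h, h1]
      split_ifs <;> omega
    · have h1 := level54 (p ^ i) g M hg (by omega)
      rw [if_neg h, h1]
      generalize g / p ^ i = t
      by_cases h2 : M % p ^ i < g
      · rw [if_pos h2, if_pos ⟨by omega, h2⟩]
        omega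
      · rw [if_neg h2]
        omega
  refine (sum_le_sum key).trans ?_
  rw [sum_add_distrib, sum_add_distrib, sum_add_distrib]
  have h1 : ∑ i ∈ Ico 1 (L + 1), g / p ^ i ≤ g / (p - 1) :=
    Nat.geom_sum_Ico_le hp.two_le g (L + 1)
  have h2 : (∑ i ∈ Ico 1 (L + 1), if p ^ i ≤ g then 1 else 0) ≤ Nat.log 2 g := by
    rw [← card_filter]
    have h3 : (Ico 1 (L + 1)).filter (fun i => p ^ i ≤ g) ⊆ Ico 1 (Nat.log 2 g + 1) := by
      intro i hi
      rw [mem_filter, mem_Ico] at hi
      rw [mem_Ico]
      refine ⟨hi.1.1, ?_⟩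
      have h4 : 2 ^ i ≤ g := (Nat.pow_le_pow_left hp.two_le i).trans hi.2
      have h5 : i ≤ Nat.log 2 g := Nat.le_log_of_pow_le (by norm_num) h4
      omega
    have h4 := card_le_card h3
    rw [Nat.card_Ico] at h4
    omega
  have h3 : (∑ i ∈ Ico 1 (L + 1), if g < p ^ i ∧ M % p ^ i < g then 1 else 0) ≤ Tp p g L M := by
    rw [← card_filter]
    unfold Tp
    apply card_le_card
    intro i hi
    rw [mem_filter, mem_Ico] at hi
    rw [mem_filter, mem_range]
    exact ⟨hi.1.2, hi.2⟩
  omega

theorem lar : LARStmt := by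
  intro p g L M a hp hgp hM hg h
  rw [leg54 hp hM, leg54 hp (lt_of_le_of_lt (Nat.sub_le M g) hM)]
  unfold Cp
  rw [card_filter, ← sum_add_distrib]
  apply sum_le_sum
  intro i hi
  rw [mem_Ico] at hi
  have hpi : p ≤ p ^ i := Nat.le_self_pow (by omega) p
  have h1 := level54 (p ^ i) g M hg (by omega)
  rw [h1]
  by_cases h2 : M % p ^ i < g
  · rw [if_pos h2]
    have h3 : M % p ^ i % p = M % p := Nat.mod_mod_of_dvd M (dvd_pow_self p (by omega))
    have h4 : a % p ^ i % p = a % p := Nat.mod_mod_of_dvd a (dvd_pow_self p (by omega))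
    rw [Nat.mod_eq_of_lt (by omega)] at h3
    have h5 : a % p ≤ a % p ^ i := by
      rw [← h4]
      exact Nat.mod_le _ _
    rw [if_pos (by omega)]
  · rw [if_neg h2]
    omega

end Pool.Agent.H93.AS
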