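import Pool.Agent.H93.AS.Defs

/-!
# MP_1f2761_nt, k = 2: row NUM
-/

set_option autoImplicit false

namespace Pool.Agent.H93.AS

theorem num_aux54 : ∀ p : ℕ, 7 ≤ p → Real.log p < 49 / 100 * ((p : ℝ) - 1) * Real.log 2 := by
  intro p hp
  induction p, hp using Nat.le_induction with
  | base =>
    have h1 : (50 : ℝ) * Real.log 7 < 147 * Real.log 2 := by
      have h2 : Real.log ((7 : ℝ) ^ 50) < Real.log ((2 : ℝ) ^ 147) :=
        Real.log_lt_log (by norm_num) (by norm_num)
      rw [Real.log_pow, Real.log_pow] at h2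
      exact_mod_cast h2
    push_cast
    linarith
  | succ n hn ih =>
    have hn0 : (0 : ℝ) < n := by
      have : 0 < n := by omega
      exact_mod_cast this
    have hn7 : (7 : ℝ) ≤ n := by exact_mod_cast hn
    have h1 : Real.log ((n + 1 : ℕ) : ℝ) ≤ Real.log n + 1 / n := by
      have e : ((n + 1 : ℕ) : ℝ) = n * (1 + 1 / n) := by
        push_cast
        field_simp
      have hp1 : (0 : ℝ) < 1 + 1 / n := by positivity
      rw [e, Real.log_mul hn0.ne' hp1.ne']
      have := Real.log_le_sub_one_of_pos hp1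
      linarith
    have h2 : (1 : ℝ) / n ≤ 1 / 7 := one_div_le_one_div_of_le (by norm_num) hn7
    have h3 : (0.69 : ℝ) < Real.log 2 := lt_trans (by norm_num) Real.log_two_gt_d9
    push_cast at h1 ⊢
    nlinarith [h1, h2, h3, ih]

theorem num : NUMStmt := by
  have hl2 : 0 < Real.log 2 := Real.log_pos (by norm_num)
  refine ⟨?_, ?_, ?_⟩
  · have hl3 : 0 < Real.log 3 := Real.log_pos (by norm_num)
    have h1 : (17 : ℝ) * Real.log 3 < 27 * Real.log 2 := by
      have h2 : Real.log ((3 : ℝ) ^ 17) < Real.log ((2 : ℝ) ^ 27) :=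
        Real.log_lt_log (by norm_num) (by norm_num)
      rw [Real.log_pow, Real.log_pow] at h2
      exact_mod_cast h2
    have h3 : 17 / 27 < Real.log 2 / Real.log 3 := by
      rw [lt_div_iff₀ hl3]
      linarith
    nlinarith [h3]
  · have hl5 : 0 < Real.log 5 := Real.log_pos (by norm_num)
    have h1 : (31 : ℝ) * Real.log 5 < 72 * Real.log 2 := by
      have h2 : Real.log ((5 : ℝ) ^ 31) < Real.log ((2 : ℝ) ^ 72) :=
        Real.log_lt_log (by norm_num) (by norm_num)
      rw [Real.log_pow, Real.log_pow] at h2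
      exact_mod_cast h2
    have h3 : 31 / 72 < Real.log 2 / Real.log 5 := by
      rw [lt_div_iff₀ hl5]
      linarith
    nlinarith [h3]
  · intro p hp
    have hp7 : (7 : ℝ) ≤ p := by exact_mod_cast hp
    have hlp : 0 < Real.log p := Real.log_pos (by linarith)
    have h1 := num_aux54 p hp
    rw [div_lt_iff₀ (by linarith)]
    have e : 49 / 100 * (Real.log 2 / Real.log p) * ((p : ℝ) - 1) =
        (49 / 100 * ((p : ℝ) - 1) * Real.log 2) / Real.log p := by
      field_simp
    rw [e, lt_div_iff₀ hlp]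
    linarith

end Pool.Agent.H93.AS
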